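import Pool.Agent.Q66.QM.Base

set_option autoImplicit false
set_option linter.unusedSectionVars false

/-! # Project QM, job B1: one chart of the blow-up -/

namespace Pool.Agent.Q66.QM

open MvPolynomial Pool.Agent.W428.MOT Pool.Agent.TH192.MT Pool.Agent.TH192.DT Pool.Agent.Q49.CO
open Pool.Agent.W574.SM (chart chartI)
open Pool.Agent.Q57.QM

theorem cyl_Dc (c : ℂ) {k q : ℕ} (h : k ≤ q) : Cyl (Dc c k) q := by
  refine (Cyl.vnX 0 (by omega)).and ((Cyl.c0 0 h).not.and ((Cyl.vnX 1 (by omega)).and ?_))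
  refine (Cyl.cpoly (X ((1 : Fin 2), (⟨k, by omega⟩ : Fin (q + 1))) -
    C c * X ((0 : Fin 2), (⟨k, by omega⟩ : Fin (q + 1))))).congr fun γ => ?_
  rw [map_sub, map_mul, aeval_X, aeval_X, algHom_C, sub_eq_zero]
  rfl

theorem psi0 (c : ℂ) (δ : Arc ℂ (Fin 2)) : psi c δ 0 = δ 0 := rfl

theorem psi1 (c : ℂ) (δ : Arc ℂ (Fin 2)) :
    psi c δ 1 = (PowerSeries.C (algebraMap ℂ (AlgebraicClosure ℂ) c) + δ 1) * δ 0 :=
  mul_comm _ _

theorem aeval_psi (c : ℂ) (δ : Arc ℂ (Fin 2)) {g gc : MvPolynomial (Fin 2) ℂ} {m : ℕ}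
    (h : aeval (chart c) g = X 0 ^ m * gc) :
    aeval (psi c δ) g = δ 0 ^ m * aeval δ gc := by
  have h1 : aeval δ (aeval (chart c) g) = aeval δ (X 0 ^ m * gc) := by rw [h]
  rw [comp_aeval_apply, map_mul, map_pow, aeval_X] at h1
  rw [← h1]
  congr 1
  congr 1
  funext i
  fin_cases i
  · change δ 0 = aeval δ (X 0)
    rw [aeval_X]
  · change δ 0 * (PowerSeries.C (algebraMap ℂ (AlgebraicClosure ℂ) c) + δ 1) =
      aeval δ (X 0 * (X 1 + C c))
    rw [map_mul, map_add, aeval_X, aeval_X, algHom_C, PowerSeries.algebraMap_apply, add_comm]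

theorem oc_ord {a k k' : ℕ} {x : PowerSeries (AlgebraicClosure ℂ)} (hk : 1 ≤ k) (hx : Vn k x)
    (hx' : PowerSeries.coeff k x ≠ 0) : OC a k' x ↔ k' = if a = 0 then 0 else k := by
  unfold OC
  by_cases ha : a = 0
  · rw [if_pos ha, if_pos ha]
    exact ⟨fun h => h.1, fun h => ⟨h, vn_mono hx hk⟩⟩
  · rw [if_neg ha, if_neg ha]
    constructor
    · intro h
      exact vn_uniq h.2.1 h.2.2 hx hx'
    · rintro rfl
      exact ⟨hk, hx, hx'⟩

theorem vn_psi1 (c : ℂ) {k : ℕ} {δ : Arc ℂ (Fin 2)} (hx : Vn k (δ 0)) : Vn k (psi c δ 1) := by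
  rw [psi1]
  exact vn_mul _ hx

theorem coeff_psi1 (c : ℂ) {k : ℕ} {δ : Arc ℂ (Fin 2)} (hx : Vn k (δ 0)) :
    PowerSeries.coeff k (psi c δ 1) = (algebraMap ℂ (AlgebraicClosure ℂ) c +
      PowerSeries.coeff 0 (δ 1)) * PowerSeries.coeff k (δ 0) := by
  rw [psi1, coeff_mul_vn _ hx, map_add]
  congr 2
  rw [PowerSeries.coeff_zero_C]

theorem dc_psi (c : ℂ) (k : ℕ) (δ : Arc ℂ (Fin 2)) :
    Dc c k (psi c δ) ↔ Vn k (δ 0) ∧ PowerSeries.coeff k (δ 0) ≠ 0 ∧ Vn 1 (δ 1) := by
  unfold Dc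
  rw [psi0]
  constructor
  · rintro ⟨h1, h2, h3, h4⟩
    refine ⟨h1, h2, fun i hi => ?_⟩
    have hi0 : i = 0 := by omega
    rw [hi0]
    rw [coeff_psi1 c h1] at h4
    have h5 := mul_right_cancel₀ h2 h4
    linear_combination h5
  · rintro ⟨h1, h2, h3⟩
    refine ⟨h1, h2, vn_psi1 c h1, ?_⟩
    rw [coeff_psi1 c h1, h3 0 (by omega), add_zero]

section main

variable {R : Type} [CommRing R] (M : Meas ℂ R) (v : R) {r : ℕ}

/-- the terms of the two sums -/
theorem dv_eq (hB : StBlowVol) (hv : M.L * v = 1) (g gc : Fin r → MvPolynomial (Fin 2) ℂ) (m : ℕ)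
    (c : ℂ) (hm : 1 ≤ m) (hg : ∀ j, aeval (chart c) (g j) = X 0 ^ m * gc j)
    {a0 n0 a1 n1 k N a1' n1' k1 k1' : ℕ} (hn0 : 1 ≤ n0) (hn1 : 1 ≤ n1) (h0 : a0 = 0 → n0 = 1)
    (hk : 1 ≤ k)
    (hoc : ∀ δ : Arc ℂ (Fin 2), Vn k (δ 0) → PowerSeries.coeff k (δ 0) ≠ 0 → Vn 1 (δ 1) →
      (OC a1 k1 (psi c δ 1) ↔ OC a1' k1' (δ 1)))
    (e1 : a1 * k1 = a1 * k + a1' * k1') (e2 : (n1 - 1) * k1 = (n1 - 1) * k + (n1' - 1) * k1') :
    dv M v g a0 n0 a1 n1 (Dc c k) (if a0 = 0 then 0 else k) k1 N =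
      dv M v gc (a0 + a1 + m) (n0 + n1) a1' n1' (fun _ => True) k k1' N := by
  set κ := if a0 = 0 then 0 else k with hκ
  have hκk : κ ≤ k := by
    rw [hκ]
    split_ifs <;> omega
  have hvol : ∀ T, vo M v (Rg g a0 κ a1 k1 (Dc c k) T) =
      v ^ k * vo M v (Rg gc (a0 + a1 + m) k a1' k1' (fun _ => True) (T - m * k)) := by
    intro T
    have hP : Cyl (Rg g a0 κ a1 k1 (Dc c k) T) (k + k1 + T) :=
      cyl_Rg g (cyl_Dc c (by omega)) (by omega) (by omega) (by omega)
    rw [(hB M v hv _ _ k c hP fun γ h => ⟨h.1.1, h.1.2.1, h.1.2.2.1⟩).2]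
    congr 1
    refine vo_congr M fun δ => ?_
    constructor
    · rintro ⟨h1, h2, h3, h4⟩
      rw [dc_psi] at h1
      refine ⟨trivial, ?_, (hoc δ h1.1 h1.2.1 h1.2.2).1 h3, fun j => ?_⟩
      · rw [oc_ord hk h1.1 h1.2.1, if_neg (by omega)]
      · have h5 := h4 j
        rwa [aeval_psi c δ (hg j), vn_pow_mul h1.1 h1.2.1] at h5
    · rintro ⟨_, h2, h3, h4⟩
      have h5 : Vn k (δ 0) ∧ PowerSeries.coeff k (δ 0) ≠ 0 := by
        unfold OC at h2
        rw [if_neg (by omega)] at h2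
        exact h2.2
      have h6 : Vn 1 (δ 1) := by
        intro i hi
        have hi0 : i = 0 := by omega
        rw [hi0]
        exact oc_coeff h3
      refine ⟨(dc_psi c k δ).2 ⟨h5.1, h5.2, h6⟩, ?_, (hoc δ h5.1 h5.2 h6).2 h3, fun j => ?_⟩
      · rw [psi0, oc_ord hk h5.1 h5.2]
      · rw [aeval_psi c δ (hg j), vn_pow_mul h5.1 h5.2]
        exact h4 j
  have ek : a0 * κ = a0 * k := by
    rw [hκ]
    split_ifs with h
    · rw [h, Nat.zero_mul, Nat.zero_mul]
    · rfl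
  have en : (n0 - 1) * κ = (n0 - 1) * k := by
    rw [hκ]
    split_ifs with h
    · rw [h0 h, Nat.sub_self, Nat.zero_mul, Nat.zero_mul]
    · rfl
  have es : a0 * κ + a1 * k1 + m * k = (a0 + a1 + m) * k + a1' * k1' := by
    rw [ek, e1]
    ring
  unfold dv
  rw [hvol, hvol, Nat.sub_sub, Nat.sub_sub, es, en, e2]
  have ex : (n0 + n1 - 1) * k + (n1' - 1) * k1' =
      (n0 - 1) * k + ((n1 - 1) * k + (n1' - 1) * k1') + k := by
    obtain ⟨n0, rfl⟩ := Nat.exists_eq_add_of_le' hn0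
    obtain ⟨n1, rfl⟩ := Nat.exists_eq_add_of_le' hn1
    have h1 : n0 + 1 + (n1 + 1) - 1 = n0 + n1 + 1 := by omega
    rw [h1, Nat.add_sub_cancel, Nat.add_sub_cancel]
    ring
  rw [ex, pow_add _ _ k]
  ring

theorem dv_empty (hv : M.L * v = 1) (g : Fin r → MvPolynomial (Fin 2) ℂ) {a0 n0 a1 n1 k0 k1 N : ℕ}
    {Q : Arc ℂ (Fin 2) → Prop} (h : ∀ γ, Q γ → OC a0 k0 (γ 0) → OC a1 k1 (γ 1) → False) :
    dv M v g a0 n0 a1 n1 Q k0 k1 N = 0 := by
  unfold dv
  rw [vo_false M hv fun γ h1 => h γ h1.1 h1.2.1 h1.2.2.1,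
    vo_false M hv fun γ h1 => h γ h1.1 h1.2.1 h1.2.2.1, sub_self, mul_zero]

end main

theorem qm_chartk : StBlowVol → StChartK := by
  intro hBV R _ M v hv r g gc m c hm hg a0 n0 a1 n1 k B N hn0 hn1 h0 h1 hk hB
  unfold sv
  congr 1
  rw [Finset.sum_eq_single (if a0 = 0 then 0 else k)]
  rotate_left
  · intro k0 _ hk0
    apply Finset.sum_eq_zero
    intro k1 _
    exact dv_empty M v hv g fun γ h2 h3 _ => hk0 ((oc_ord hk h2.1 h2.2.1).1 h3)
  · intro hκ
    rw [Finset.mem_range] at hκ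
    apply Finset.sum_eq_zero
    intro k1 _
    apply dv_zero
    split_ifs at hκ ⊢ with h2
    · omega
    · have : k ≤ a0 * k := Nat.le_mul_of_pos_left k (Nat.pos_of_ne_zero h2)
      omega
  by_cases hc : c = 0 ∧ a1 ≠ 0
  · -- the other exceptional curve meets the chart
    obtain ⟨rfl, ha1⟩ := hc
    rw [if_pos rfl, if_pos rfl]
    have ha1' : 0 < a1 := Nat.pos_of_ne_zero ha1
    have hext : ∑ k1 ∈ Finset.range B,
        dv M v g a0 n0 a1 n1 (Dc 0 k) (if a0 = 0 then 0 else k) k1 N =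
        ∑ k1 ∈ Finset.range (k + B),
        dv M v g a0 n0 a1 n1 (Dc 0 k) (if a0 = 0 then 0 else k) k1 N := by
      refine Finset.sum_subset (fun x hx => ?_) fun x _ hx => ?_
      · rw [Finset.mem_range] at hx ⊢
        omega
      · rw [Finset.mem_range] at hx
        apply dv_zero
        have : x ≤ a1 * x := Nat.le_mul_of_pos_left x ha1'
        omega
    rw [hext, Finset.sum_range_add, Finset.sum_eq_zero, zero_add]
    · refine Finset.sum_congr rfl fun k1 _ => ?_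
      refine dv_eq M v hBV hv g gc m 0 hm hg hn0 hn1 h0 hk ?_ (by ring) (by ring)
      intro δ hx hx' hy
      have hp : psi 0 δ 1 = δ 0 ^ 1 * δ 1 := by
        rw [psi1, map_zero, map_zero, zero_add, pow_one, mul_comm]
      rw [hp]
      unfold OC
      rw [if_neg ha1, if_neg ha1]
      by_cases hy0 : δ 1 = 0
      · rw [hy0, mul_zero]
        constructor
        · intro h
          exact absurd (map_zero _) h.2.2
        · intro h
          exact absurd (map_zero _) h.2.2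
      · obtain ⟨l, hl, hl'⟩ := exists_ord hy0
        have hl1 : 1 ≤ l := by
          by_contra h2
          have h3 : l = 0 := by omega
          rw [h3] at hl'
          exact hl' (hy 0 (by omega))
        have g1 : Vn (k + l) (δ 0 ^ 1 * δ 1) := by
          rw [vn_pow_mul hx hx']
          exact vn_mono hl (by omega)
        have g2 : PowerSeries.coeff (k + l) (δ 0 ^ 1 * δ 1) ≠ 0 := by
          intro h2
          have h3 : Vn (k + l + 1) (δ 0 ^ 1 * δ 1) := by
            intro i hi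
            rcases Nat.lt_succ_iff_lt_or_eq.1 hi with h4 | h4
            · exact g1 i h4
            · rw [h4]
              exact h2
          rw [vn_pow_mul hx hx'] at h3
          exact hl' (h3 l (by omega))
        constructor
        · rintro ⟨h2, h3, h4⟩
          have h5 := vn_uniq h3 h4 g1 g2
          have h6 : k1 = l := by omega
          rw [h6]
          exact ⟨hl1, hl, hl'⟩
        · rintro ⟨h2, h3, h4⟩
          have h5 := vn_uniq h3 h4 hl hl'
          rw [h5]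
          exact ⟨by omega, g1, g2⟩
    · intro k1 hk1
      rw [Finset.mem_range] at hk1
      refine dv_empty M v hv g fun γ h2 _ h4 => ?_
      unfold OC at h4
      rw [if_neg ha1] at h4
      exact h4.2.2 (h2.2.2.1 k1 hk1)
  · -- no other exceptional curve
    have ea : (if c = 0 then a1 else 0) = 0 := by
      split_ifs with h
      · by_contra h2
        exact hc ⟨h, h2⟩
      · rfl
    have en : (if c = 0 then n1 else 1) = 1 := by
      split_ifs with h
      · apply h1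
        by_contra h2
        exact hc ⟨h, h2⟩
      · rfl
    rw [ea, en, Finset.sum_eq_single (if a1 = 0 then 0 else k), Finset.sum_eq_single 0]
    · refine dv_eq M v hBV hv g gc m c hm hg hn0 hn1 h0 hk ?_ ?_ ?_
      · intro δ hx hx' hy
        unfold OC
        rw [if_pos rfl]
        by_cases ha1 : a1 = 0
        · rw [if_pos ha1, if_pos ha1]
          exact ⟨fun h => ⟨h.1, hy⟩, fun h => ⟨h.1, vn_mono (vn_psi1 c hx) hk⟩⟩
        · rw [if_neg ha1, if_neg ha1]
          have hc0 : c ≠ 0 := fun h => hc ⟨h, ha1⟩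
          refine ⟨fun _ => ⟨rfl, hy⟩, fun _ => ⟨hk, vn_psi1 c hx, ?_⟩⟩
          rw [coeff_psi1 c hx, hy 0 (by omega), add_zero]
          exact mul_ne_zero (fun h => hc0 ((map_eq_zero _).1 h)) hx'
      · split_ifs with h
        · rw [h, Nat.zero_mul, Nat.zero_mul]
        · rw [Nat.mul_zero, Nat.add_zero]
      · split_ifs with h
        · rw [h1 h, Nat.sub_self, Nat.zero_mul, Nat.zero_mul]
        · rw [Nat.mul_zero, Nat.add_zero]
    · intro k1 _ hk1
      refine dv_empty M v hv gc fun γ _ _ h4 => ?_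
      unfold OC at h4
      rw [if_pos rfl] at h4
      exact hk1 h4.1
    · intro h2
      exact absurd (Finset.mem_range.2 (by omega)) h2
    · intro k1 _ hk1
      refine dv_empty M v hv g fun γ h2 _ h4 => ?_
      by_cases ha1 : a1 = 0
      · rw [if_pos ha1] at hk1
        unfold OC at h4
        rw [if_pos ha1] at h4
        exact hk1 h4.1
      · have hc0 : c ≠ 0 := fun h => hc ⟨h, ha1⟩
        refine hk1 ((oc_ord hk h2.2.2.1 ?_).1 h4)
        rw [h2.2.2.2]
        exact mul_ne_zero (fun h => hc0 ((map_eq_zero _).1 h)) h2.2.1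
    · intro h2
      rw [Finset.mem_range] at h2
      apply dv_zero
      by_cases h3 : a1 = 0
      · rw [if_pos h3] at h2
        omega
      · rw [if_neg h3] at h2 ⊢
        have : k ≤ a1 * k := Nat.le_mul_of_pos_left k (Nat.pos_of_ne_zero h3)
        omega

end Pool.Agent.Q66.QM
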