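import Pool.Agent.Q66.QM.Base

set_option autoImplicit false
set_option linter.unusedSectionVars false

/-! # Project QM, job L: the series at units and at powers of smooth curves -/

namespace Pool.Agent.Q66.QM

open MvPolynomial Pool.Agent.W428.MOT Pool.Agent.TH192.MT Pool.Agent.TH192.DT Pool.Agent.Q49.CO
open Pool.Agent.W574.MO (mf geo qq geo_mul mf_pos mf_zero)
open Pool.Agent.W574.SM (chart chartI)
open Pool.Agent.Q57.QM

theorem qm_unit : StBox → StUnit := by
  intro hBox R _ M u hu r g j hj a0 n0 a1 n1 hn0 hn1 h0 h1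
  have hv := L_mul_inv M hu
  ext N
  unfold IS
  rw [PowerSeries.coeff_mk, coeff_mf_mul M hu hn0 hn1 h0 h1 (le_refl (N + 1))]
  unfold sv
  rw [Finset.mul_sum]
  refine Finset.sum_congr rfl fun k0 _ => ?_
  rw [Finset.mul_sum]
  refine Finset.sum_congr rfl fun k1 _ => ?_
  have hbox0 : vo M ((u⁻¹ : Rˣ) : R) (Rg g a0 k0 a1 k1 (fun _ => True) 0) =
      bx M ((u⁻¹ : Rˣ) : R) a0 k0 * bx M ((u⁻¹ : Rˣ) : R) a1 k1 := by
    rw [← hBox M _ hv a0 k0 a1 k1]
    refine vo_congr M fun γ => ?_
    constructor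
    · intro h
      exact ⟨h.2.1, h.2.2.1⟩
    · intro h
      exact ⟨trivial, h.1, h.2, fun j i hi => absurd hi (by omega)⟩
  have hempty : ∀ T, 1 ≤ T →
      vo M ((u⁻¹ : Rˣ) : R) (Rg g a0 k0 a1 k1 (fun _ => True) T) = 0 := by
    intro T hT
    refine vo_false M hv fun γ h => ?_
    have h2 := h.2.2.2 j 0 hT
    rw [coeff_aeval0 (oc_coeff h.2.1) (oc_coeff h.2.2.1)] at h2
    exact hj ((map_eq_zero _).1 h2)
  by_cases h : a0 * k0 + a1 * k1 = N
  · rw [if_pos h]
    unfold dv
    rw [h, Nat.sub_self, hbox0, Nat.add_sub_cancel_left, hempty 1 le_rfl, sub_zero]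
    unfold cf
    rw [pow_add]
    ring
  · rw [if_neg h]
    rcases lt_or_gt_of_ne h with h2 | h2
    · unfold dv
      rw [hempty _ (by omega), hempty _ (by omega), sub_self, mul_zero, mul_zero]
    · rw [dv_zero M _ g _ h2, mul_zero]

/-- the volumes for a curve transversal to `x = 0` -/
theorem curve_vol (hC : StCurveVol) {R : Type} [CommRing R] (M : Meas ℂ R) (v : R)
    (hv : M.L * v = 1) (h : MvPolynomial (Fin 2) ℂ) (h0 : constantCoeff h = 0)
    (h1 : constantCoeff (pderiv 1 h) ≠ 0) (a0 k0 T : ℕ) (hT : 1 ≤ T) :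
    vo M v (fun γ : Arc ℂ (Fin 2) => OC a0 k0 (γ 0) ∧ Vn 1 (γ 1) ∧ Vn T (aeval γ h)) =
      bx M v a0 k0 * v ^ T := by
  unfold bx OC
  by_cases ha : a0 = 0
  · simp only [if_pos ha]
    by_cases hk : k0 = 0
    · rw [if_pos hk, ← pow_succ', Nat.add_comm T 1, ← hC M v hv h h0 h1 1 T le_rfl hT]
      refine vo_congr M fun γ => ?_
      constructor
      · intro h2
        exact ⟨h2.1.2, h2.2⟩
      · intro h2
        exact ⟨⟨hk, h2.1⟩, h2.2⟩
    · rw [if_neg hk, zero_mul]
      exact vo_false M hv fun γ h2 => hk h2.1.1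
  · simp only [if_neg ha]
    by_cases hk : k0 = 0
    · rw [if_pos hk, zero_mul]
      exact vo_false M hv fun γ h2 => by
        have := h2.1.1
        omega
    · rw [if_neg hk]
      have hP : Cyl (fun γ : Arc ℂ (Fin 2) => Vn k0 (γ 0) ∧ Vn 1 (γ 1) ∧ Vn T (aeval γ h))
          (k0 + T + 1) :=
        (Cyl.vnX 0 (by omega)).and ((Cyl.vnX 1 (by omega)).and (Cyl.vn h (by omega)))
      have hQ : Cyl (fun γ : Arc ℂ (Fin 2) => PowerSeries.coeff k0 (γ 0) = 0) (k0 + T + 1) :=
        Cyl.c0 0 (by omega)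
      have e1 := vo_split M hv hP hQ
      have e2 : vo M v (fun γ : Arc ℂ (Fin 2) => (Vn k0 (γ 0) ∧ Vn 1 (γ 1) ∧ Vn T (aeval γ h)) ∧
          PowerSeries.coeff k0 (γ 0) = 0) = v ^ (k0 + 1 + T) := by
        rw [← hC M v hv h h0 h1 (k0 + 1) T (by omega) hT]
        refine vo_congr M fun γ => ?_
        constructor
        · intro h2
          refine ⟨fun i hi => ?_, h2.1.2⟩
          rcases Nat.lt_succ_iff_lt_or_eq.1 hi with h3 | h3
          · exact h2.1.1 i h3
          · rw [h3]
            exact h2.2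
        · intro h2
          exact ⟨⟨vn_mono h2.1 (by omega), h2.2⟩, h2.1 k0 (by omega)⟩
      rw [hC M v hv h h0 h1 k0 T (by omega) hT, e2] at e1
      have e3 : vo M v (fun γ : Arc ℂ (Fin 2) =>
          (1 ≤ k0 ∧ Vn k0 (γ 0) ∧ PowerSeries.coeff k0 (γ 0) ≠ 0) ∧ Vn 1 (γ 1) ∧
          Vn T (aeval γ h)) =
          vo M v (fun γ : Arc ℂ (Fin 2) => (Vn k0 (γ 0) ∧ Vn 1 (γ 1) ∧ Vn T (aeval γ h)) ∧
          ¬ PowerSeries.coeff k0 (γ 0) = 0) := by
        refine vo_congr M fun γ => ?_
        constructor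
        · intro h2
          exact ⟨⟨h2.1.2.1, h2.2⟩, h2.1.2.2⟩
        · intro h2
          exact ⟨⟨by omega, h2.1.1, h2.2⟩, h2.1.2⟩
      rw [e3]
      have e4 : v ^ (k0 + T) = M.L * v ^ (k0 + 1 + T) := by
        have : v ^ (k0 + 1 + T) = v * v ^ (k0 + T) := by ring
        rw [this, ← mul_assoc, hv, one_mul]
      have e5 : v ^ (k0 + 1 + T) = v ^ (k0 + 1) * v ^ T := pow_add _ _ _
      linear_combination -e1 + e4 + (M.L - 1) * e5

theorem ceil1 (m k ρ : ℕ) (hρ : ρ < m) (h0 : ρ ≠ 0) : (m * k + ρ + m - 1) / m = k + 1 := by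
  have h1 : m * k + ρ + m - 1 = m * k + (ρ - 1 + m) := by omega
  rw [h1, Nat.mul_add_div (by omega), Nat.add_div_right _ (by omega),
    Nat.div_eq_of_lt (by omega)]

theorem ceil0 (m k : ℕ) (hm : 1 ≤ m) : (m * k + m - 1) / m = k := by
  have h1 : m * k + m - 1 = m * k + (m - 1) := by omega
  rw [h1, Nat.mul_add_div (by omega), Nat.div_eq_of_lt (by omega), Nat.add_zero]

theorem ceil2 (m k ρ : ℕ) (hρ : ρ < m) : (m * k + ρ + 1 + m - 1) / m = k + 1 := by
  have h1 : m * k + ρ + 1 + m - 1 = m * k + (ρ + m) := by omega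
  rw [h1, Nat.mul_add_div (by omega), Nat.add_div_right _ (by omega), Nat.div_eq_of_lt hρ]

theorem qm_curve : StBox → StCurveVol → StCurve := by
  intro _ hC R _ M u hu r g m hm h κ hg h0 h1 j hj a0 n0 hn0 ha0
  have hv := L_mul_inv M hu
  ext N
  unfold IS
  rw [PowerSeries.coeff_mk, coeff_mf_mul M hu hn0 le_rfl ha0 (fun _ => rfl) (le_refl (N + 1))]
  unfold sv
  rw [Finset.mul_sum]
  refine Finset.sum_congr rfl fun k0 _ => ?_
  set v := ((u⁻¹ : Rˣ) : R) with hvd
  -- the regions
  have hreg : ∀ T, vo M v (Rg g a0 k0 0 0 (fun _ => True) T) =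
      bx M v a0 k0 * v ^ (max ((T + m - 1) / m) 1) := by
    intro T
    rw [← curve_vol hC M v hv h h0 h1 a0 k0 _ (le_max_right _ _)]
    refine vo_congr M fun γ => ?_
    have key : OC a0 k0 (γ 0) → Vn 1 (γ 1) → ((∀ j, Vn T (aeval γ (g j))) ↔
        Vn (max ((T + m - 1) / m) 1) (aeval γ h)) := by
      intro hx hy
      have hx0 := oc_coeff hx
      have hy0 : PowerSeries.coeff 0 (γ 1) = 0 := hy 0 (by omega)
      have hh0 : PowerSeries.coeff 0 (aeval γ h) = 0 := by
        rw [coeff_aeval0 hx0 hy0, h0, map_zero]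
      have hκ : PowerSeries.coeff 0 (aeval γ (κ j)) ≠ 0 := by
        rw [coeff_aeval0 hx0 hy0]
        exact fun h2 => hj ((map_eq_zero _).1 h2)
      have hgj : ∀ j, aeval γ (g j) = aeval γ (κ j) * aeval γ h ^ m := by
        intro j
        rw [hg j, map_mul, map_pow, mul_comm]
      constructor
      · intro h2
        have h3 := h2 j
        rw [hgj, vn_unit hκ, vn_pow m T hm] at h3
        intro i hi
        rcases lt_max_iff.1 hi with h4 | h4
        · exact h3 i h4
        · have h5 : i = 0 := by omega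
          rw [h5]
          exact hh0
      · intro h2 j
        rw [hgj]
        apply vn_mul
        rw [vn_pow m T hm]
        exact vn_mono h2 (le_max_left _ _)
    constructor
    · intro h2
      have hy : Vn 1 (γ 1) := by
        have h3 := h2.2.2.1
        unfold OC at h3
        rw [if_pos rfl] at h3
        exact h3.2
      exact ⟨h2.2.1, hy, (key h2.2.1 hy).1 h2.2.2.2⟩
    · intro h2
      refine ⟨trivial, h2.1, ?_, (key h2.1 h2.2.1).2 h2.2.2⟩
      unfold OC
      rw [if_pos rfl]
      exact ⟨rfl, h2.2.1⟩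
  have hreg' : ∀ k1 T, k1 ≠ 0 → vo M v (Rg g a0 k0 0 k1 (fun _ => True) T) = 0 := by
    intro k1 T hk
    refine vo_false M hv fun γ h2 => ?_
    have h3 := h2.2.2.1
    unfold OC at h3
    rw [if_pos rfl] at h3
    exact hk h3.1
  -- the sum over `k1`
  have hsum : ∑ k1 ∈ Finset.range (N + 1), dv M v g a0 n0 0 1 (fun _ => True) k0 k1 N =
      v ^ ((n0 - 1) * k0) * (bx M v a0 k0 * v ^ (max ((N - a0 * k0 + m - 1) / m) 1) -
        bx M v a0 k0 * v ^ (max ((N + 1 - a0 * k0 + m - 1) / m) 1)) := by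
    rw [Finset.sum_eq_single 0]
    · unfold dv
      rw [hreg, hreg, Nat.zero_mul, Nat.add_zero, Nat.add_zero]
    · intro k1 _ hk
      unfold dv
      rw [hreg' k1 _ hk, hreg' k1 _ hk, sub_self, mul_zero]
    · intro h2
      exact absurd (Finset.mem_range.2 (by omega)) h2
  rw [hsum]
  -- the coefficients of the second factor
  have hcf : M.L * (v ^ (max ((N - a0 * k0 + m - 1) / m) 1) -
      v ^ (max ((N + 1 - a0 * k0 + m - 1) / m) 1)) =
      ∑ k1 ∈ Finset.range (N + 1), if a0 * k0 + m * k1 = N then cf M v m 1 k1 else 0 := by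
    rcases Nat.lt_or_ge N (a0 * k0) with h2 | h2
    · have h3 : N - a0 * k0 = N + 1 - a0 * k0 := by omega
      rw [h3, sub_self, mul_zero]
      symm
      apply Finset.sum_eq_zero
      intro k1 _
      rw [if_neg]
      omega
    · obtain ⟨t, rfl⟩ := Nat.exists_eq_add_of_le h2
      have h3 : a0 * k0 + t - a0 * k0 = t := by omega
      have h4 : a0 * k0 + t + 1 - a0 * k0 = t + 1 := by omega
      rw [h3, h4]
      have h5 := Nat.div_add_mod t m
      have h6 : t % m < m := Nat.mod_lt _ hm
      set k := t / m with hk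
      set ρ := t % m with hρ
      by_cases hρ0 : ρ = 0
      · have h7 : t = m * k := by omega
        have e1 : (t + m - 1) / m = k := by
          rw [h7]
          exact ceil0 m k hm
        have e2 : (t + 1 + m - 1) / m = k + 1 := by
          rw [h7]
          have := ceil2 m k 0 hm
          rwa [Nat.add_zero] at this
        rw [e1, e2, Finset.sum_eq_single k]
        · rw [if_pos (by omega)]
          unfold cf bx
          rw [if_neg (by omega : ¬ m = 0), Nat.sub_self, Nat.zero_mul, pow_zero, one_mul]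
          rcases Nat.eq_zero_or_pos k with hk0 | hk0
          · rw [if_pos hk0, hk0]
            simp
          · rw [if_neg (by omega), max_eq_left (by omega), max_eq_left (by omega)]
            have e3 : v ^ k = M.L * v ^ (k + 1) := by
              have : v ^ (k + 1) = v * v ^ k := by ring
              rw [this, ← mul_assoc, hv, one_mul]
            linear_combination M.L * e3
        · intro k' _ hk'
          rw [if_neg]
          intro h8
          apply hk'
          have h9 : m * k' = m * k := by omega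
          exact Nat.eq_of_mul_eq_mul_left hm h9
        · intro h8
          exfalso
          apply h8
          rw [Finset.mem_range]
          have : k ≤ m * k := Nat.le_mul_of_pos_left k hm
          omega
      · have e1 : (t + m - 1) / m = k + 1 := by
          have := ceil1 m k ρ h6 hρ0
          rwa [h5] at this
        have e2 : (t + 1 + m - 1) / m = k + 1 := by
          have := ceil2 m k ρ h6
          rwa [h5] at this
        rw [e1, e2, sub_self, mul_zero]
        symm
        apply Finset.sum_eq_zero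
        intro k1 _
        rw [if_neg]
        intro h8
        have h9 : t = m * k1 := by omega
        apply hρ0
        rw [hρ, h9]
        exact Nat.mul_mod_right _ _
  have e5 : ∑ k1 ∈ Finset.range (N + 1), (if a0 * k0 + m * k1 = N then
      cf M v a0 n0 k0 * cf M v m 1 k1 else 0) = cf M v a0 n0 k0 *
      ∑ k1 ∈ Finset.range (N + 1), if a0 * k0 + m * k1 = N then cf M v m 1 k1 else 0 := by
    rw [Finset.mul_sum]
    refine Finset.sum_congr rfl fun k1 _ => ?_
    split_ifs
    · rfl
    · rw [mul_zero]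
  rw [e5, ← hcf]
  unfold cf
  ring

end Pool.Agent.Q66.QM
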