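import Pool.Agent.Q57.QM.Stm
import Pool.Agent.W574.MO.Alg

set_option autoImplicit false
set_option linter.unusedSectionVars false

/-! # Project QM: tools for the jobs L and B1 -/

namespace Pool.Agent.Q66.QM

open MvPolynomial Pool.Agent.W428.MOT Pool.Agent.TH192.MT Pool.Agent.TH192.DT Pool.Agent.Q49.CO
open Pool.Agent.W574.MO (mf geo qq geo_mul mf_pos mf_zero)
open Pool.Agent.W574.SM (chart chartI)
open Pool.Agent.Q57.QM

section ser

variable {F : Type} [Field F]

theorem exists_ord {x : PowerSeries F} (hx : x ≠ 0) :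
    ∃ k, Vn k x ∧ PowerSeries.coeff k x ≠ 0 := by
  classical
  have h1 : ∃ k, PowerSeries.coeff k x ≠ 0 := by
    by_contra h
    push Not at h
    exact hx (PowerSeries.ext fun n => by rw [h n, map_zero])
  refine ⟨Nat.find h1, fun j hj => ?_, Nat.find_spec h1⟩
  by_contra h
  exact Nat.find_min h1 hj h

theorem vn_le {x : PowerSeries F} {k T : ℕ} (hx : Vn k x) (hx' : PowerSeries.coeff k x ≠ 0) :
    Vn T x ↔ T ≤ k := by
  constructor
  · intro h
    by_contra h1
    exact hx' (h k (by omega))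
  · intro h
    exact vn_mono hx h

theorem vn_pow_mul {x G : PowerSeries F} {k : ℕ} (hx : Vn k x) (hx' : PowerSeries.coeff k x ≠ 0)
    (m T : ℕ) : Vn T (x ^ m * G) ↔ Vn (T - m * k) G := by
  obtain ⟨e, rfl⟩ := vn_iff.1 hx
  have he : PowerSeries.coeff 0 e ≠ 0 := by
    have h := PowerSeries.coeff_X_pow_mul e k 0
    rw [Nat.zero_add] at h
    rwa [h] at hx'
  have he' : PowerSeries.coeff 0 (e ^ m) ≠ 0 := by
    rw [PowerSeries.coeff_zero_eq_constantCoeff_apply] at he ⊢
    rw [map_pow]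
    exact pow_ne_zero _ he
  have h1 : (PowerSeries.X ^ k * e) ^ m * G = PowerSeries.X ^ (m * k) * (e ^ m * G) := by
    rw [mul_pow, ← pow_mul, mul_comm k m]
    ring
  rw [h1]
  rcases le_total T (m * k) with h2 | h2
  · rw [Nat.sub_eq_zero_of_le h2]
    refine ⟨fun _ j hj => absurd hj (by omega), fun _ => ?_⟩
    rw [vn_iff]
    exact (pow_dvd_pow _ h2).mul_right _
  · have h3 : Vn (T - m * k + m * k) (PowerSeries.X ^ (m * k) * (e ^ m * G)) ↔
        Vn (T - m * k) (e ^ m * G) := vn_X _ _ _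
    rw [Nat.sub_add_cancel h2] at h3
    rw [h3]
    exact vn_unit he'

theorem vn_pow {x : PowerSeries F} (m T : ℕ) (hm : 1 ≤ m) :
    Vn T (x ^ m) ↔ Vn ((T + m - 1) / m) x := by
  by_cases hx : x = 0
  · rw [hx, zero_pow (by omega)]
    exact ⟨fun _ j _ => by rw [map_zero], fun _ j _ => by rw [map_zero]⟩
  · obtain ⟨k, h1, h2⟩ := exists_ord hx
    rw [vn_le h1 h2, ← mul_one (x ^ m), vn_pow_mul h1 h2]
    have h3 : Vn (T - m * k) (1 : PowerSeries F) ↔ T - m * k ≤ 0 := by
      refine vn_le (fun j hj => absurd hj (by omega)) ?_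
      rw [PowerSeries.coeff_zero_eq_constantCoeff_apply, map_one]
      exact one_ne_zero
    rw [h3]
    have h4 : (T + m - 1) / m ≤ k ↔ (T + m - 1) / m < k + 1 := by omega
    rw [h4, Nat.div_lt_iff_lt_mul (by omega)]
    have h5 : (k + 1) * m = m * k + m := by ring
    rw [h5]
    omega

end ser

/-! ## Cylinders -/

theorem cyl_OC (i : Fin 2) {a k q : ℕ} (h : k ≤ q) :
    Cyl (fun γ : Arc ℂ (Fin 2) => OC a k (γ i)) q := by
  unfold OC
  by_cases ha : a = 0
  · simp only [if_pos ha]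
    exact (Cyl.const (k = 0) q).and (Cyl.vnX i (by omega))
  · simp only [if_neg ha]
    exact (Cyl.const (1 ≤ k) q).and ((Cyl.vnX i (by omega)).and (Cyl.c0 i h).not)

theorem cyl_Rg {r : ℕ} (g : Fin r → MvPolynomial (Fin 2) ℂ) {a0 k0 a1 k1 N q : ℕ}
    {Q : Arc ℂ (Fin 2) → Prop} (hQ : Cyl Q q) (h0 : k0 ≤ q) (h1 : k1 ≤ q) (hN : N ≤ q + 1) :
    Cyl (Rg g a0 k0 a1 k1 Q N) q :=
  hQ.and ((cyl_OC 0 h0).and ((cyl_OC 1 h1).and (Cyl.all fun j => Cyl.vn (g j) hN)))

theorem oc_coeff {a k : ℕ} {u : PowerSeries (AlgebraicClosure ℂ)} (h : OC a k u) :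
    PowerSeries.coeff 0 u = 0 := by
  unfold OC at h
  split_ifs at h
  · exact h.2 0 (by omega)
  · exact h.2.1 0 (by omega)

/-- the constant term of the value of a polynomial at an arc with origin `0` -/
theorem coeff_aeval0 {γ : Arc ℂ (Fin 2)} (h0 : PowerSeries.coeff 0 (γ 0) = 0)
    (h1 : PowerSeries.coeff 0 (γ 1) = 0) (P : MvPolynomial (Fin 2) ℂ) :
    PowerSeries.coeff 0 (aeval γ P) = algebraMap ℂ (AlgebraicClosure ℂ) (constantCoeff P) := by
  rw [coeff_zero_aevalK]
  have h2 : (fun i => PowerSeries.coeff 0 (γ i)) = fun _ => (0 : AlgebraicClosure ℂ) := by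
    funext i
    fin_cases i
    · exact h0
    · exact h1
  rw [h2, aeval_zero']

section dv

variable {R : Type} [CommRing R] (M : Meas ℂ R) (v : R) {r : ℕ}

theorem dv_zero (g : Fin r → MvPolynomial (Fin 2) ℂ) {a0 n0 a1 n1 k0 k1 N : ℕ}
    (Q : Arc ℂ (Fin 2) → Prop) (h : N < a0 * k0 + a1 * k1) :
    dv M v g a0 n0 a1 n1 Q k0 k1 N = 0 := by
  unfold dv
  have h1 : N - (a0 * k0 + a1 * k1) = N + 1 - (a0 * k0 + a1 * k1) := by omega
  rw [h1, sub_self, mul_zero]

/-- the coefficients of the factors -/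
noncomputable def cf (a n k : ℕ) : R := M.L * (v ^ ((n - 1) * k) * bx M v a k)

end dv

section mfc

variable {R : Type} [CommRing R] (M : Meas ℂ R) (u : Rˣ)

theorem coeff_geo {a : ℕ} (ha : 1 ≤ a) (n N : ℕ) :
    PowerSeries.coeff N (geo u a n) =
      if a ∣ N then (((u⁻¹ : Rˣ) : R) ^ n) ^ (N / a) else 0 := by
  set S : PowerSeries R := PowerSeries.mk fun N =>
    if a ∣ N then (((u⁻¹ : Rˣ) : R) ^ n) ^ (N / a) else 0 with hS
  have h1 : (1 - qq u a n) * S = 1 := by
    ext N
    rw [sub_mul, one_mul, map_sub, hS, PowerSeries.coeff_mk, qq, mul_assoc,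
      PowerSeries.coeff_C_mul, PowerSeries.coeff_X_pow_mul', PowerSeries.coeff_one]
    by_cases hN : a ≤ N
    · rw [if_pos hN, PowerSeries.coeff_mk, if_neg (by omega : ¬ N = 0)]
      obtain ⟨N', rfl⟩ := Nat.exists_eq_add_of_le hN
      rw [Nat.add_sub_cancel_left, Nat.add_div_left _ ha]
      have h2 : a ∣ a + N' ↔ a ∣ N' := Nat.dvd_add_right (dvd_refl a)
      rw [if_congr h2 rfl rfl]
      split_ifs
      · rw [Units.val_pow_eq_pow_val, pow_succ (((u⁻¹ : Rˣ) : R) ^ n)]
        ring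
      · ring
    · rw [if_neg hN, mul_zero, sub_zero]
      by_cases h0 : N = 0
      · rw [h0, if_pos (dvd_zero a), if_pos rfl, Nat.zero_div, pow_zero]
      · rw [if_neg h0, if_neg]
        intro h3
        exact hN (Nat.le_of_dvd (Nat.pos_of_ne_zero h0) h3)
  have h2 : geo u a n = S := by
    have h3 := geo_mul u ha n
    calc geo u a n = geo u a n * ((1 - qq u a n) * S) := by rw [h1, mul_one]
      _ = ((1 - qq u a n) * geo u a n) * S := by ring
      _ = S := by rw [h3, one_mul]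
  rw [h2, hS, PowerSeries.coeff_mk]

variable {u} (hu : M.L = (u : R))
include hu

theorem L_mul_inv : M.L * ((u⁻¹ : Rˣ) : R) = 1 := by
  rw [hu, Units.mul_inv]

theorem coeff_mf {a n : ℕ} (hn : 1 ≤ n) (h0 : a = 0 → n = 1) {N B : ℕ} (hB : N + 1 ≤ B) :
    PowerSeries.coeff N (mf u a n) =
      ∑ k ∈ Finset.range B, if a * k = N then cf M ((u⁻¹ : Rˣ) : R) a n k else 0 := by
  have hv := L_mul_inv M hu
  rcases Nat.eq_zero_or_pos a with ha | ha
  · subst ha
    have hn1 := h0 rfl
    subst hn1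
    rw [mf_zero, PowerSeries.coeff_one, Finset.sum_eq_single 0]
    · rw [zero_mul]
      by_cases hN : N = 0
      · rw [if_pos hN, if_pos hN.symm]
        unfold cf bx
        rw [if_pos rfl, if_pos rfl, mul_zero, pow_zero, one_mul, hv]
      · rw [if_neg hN, if_neg (Ne.symm hN)]
    · intro k _ hk
      unfold cf bx
      rw [if_pos rfl, if_neg hk, mul_zero, mul_zero, ite_self]
    · intro h
      exact absurd (Finset.mem_range.2 (by omega)) h
  · rw [mf, if_neg (by omega), mul_assoc, PowerSeries.coeff_C_mul, PowerSeries.coeff_X_pow_mul']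
    by_cases hd : a ∣ N
    · obtain ⟨k, rfl⟩ := hd
      rw [Finset.sum_eq_single k]
      · rw [if_pos rfl]
        unfold cf bx
        rw [if_neg (by omega : ¬ a = 0)]
        rcases Nat.eq_zero_or_pos k with hk | hk
        · subst hk
          rw [if_neg (by omega), if_pos rfl, mul_zero, mul_zero, mul_zero]
        · have h1 : a ≤ a * k := Nat.le_mul_of_pos_right a hk
          rw [if_pos h1, if_neg (by omega : ¬ k = 0), coeff_geo u ha]
          have h2 : a * k - a = a * (k - 1) := by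
            rw [Nat.mul_sub, mul_one]
          rw [h2, if_pos (dvd_mul_right a _), Nat.mul_div_cancel_left _ ha,
            Units.val_pow_eq_pow_val, ← hu]
          set v := ((u⁻¹ : Rˣ) : R) with hvdef
          obtain ⟨k, rfl⟩ := Nat.exists_eq_add_of_le' hk
          obtain ⟨n, rfl⟩ := Nat.exists_eq_add_of_le' hn
          rw [Nat.add_sub_cancel, Nat.add_sub_cancel]
          have h3 : v ^ (k + 1 + 1) = v * v ^ (k + 1) := by ring
          rw [h3]
          have h4 : M.L * (v ^ (n * (k + 1)) * ((M.L - 1) * (v * v ^ (k + 1)))) =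
              (M.L * v) * ((M.L - 1) * (v ^ (n * (k + 1)) * v ^ (k + 1))) := by ring
          rw [h4, hv, one_mul, ← pow_add, mul_assoc, ← pow_mul, ← pow_add]
          congr 2
          ring
      · intro k' _ hk'
        rw [if_neg]
        intro h
        exact hk' (Nat.eq_of_mul_eq_mul_left ha h)
      · intro h
        exfalso
        apply h
        rw [Finset.mem_range]
        have : k ≤ a * k := Nat.le_mul_of_pos_left k ha
        omega
    · have h1 : ∀ k ∈ Finset.range B,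
          (if a * k = N then cf M ((u⁻¹ : Rˣ) : R) a n k else 0) = 0 := by
        intro k _
        rw [if_neg]
        rintro rfl
        exact hd (dvd_mul_right a k)
      rw [Finset.sum_eq_zero h1]
      split_ifs with h2
      · rw [coeff_geo u ha, if_neg, mul_zero]
        intro h3
        apply hd
        obtain ⟨N', rfl⟩ := Nat.exists_eq_add_of_le h2
        rw [Nat.add_sub_cancel_left] at h3
        exact (Nat.dvd_add_right (dvd_refl a)).2 h3
      · exact mul_zero _

theorem coeff_mf_mul {a0 n0 a1 n1 : ℕ} (hn0 : 1 ≤ n0) (hn1 : 1 ≤ n1) (h0 : a0 = 0 → n0 = 1)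
    (h1 : a1 = 0 → n1 = 1) {N B : ℕ} (hB : N + 1 ≤ B) :
    PowerSeries.coeff N (mf u a0 n0 * mf u a1 n1) =
      ∑ k0 ∈ Finset.range B, ∑ k1 ∈ Finset.range B, if a0 * k0 + a1 * k1 = N then
        cf M ((u⁻¹ : Rˣ) : R) a0 n0 k0 * cf M ((u⁻¹ : Rˣ) : R) a1 n1 k1 else 0 := by
  rw [PowerSeries.coeff_mul]
  have e1 : ∀ p ∈ Finset.HasAntidiagonal.antidiagonal N,
      PowerSeries.coeff p.1 (mf u a0 n0) * PowerSeries.coeff p.2 (mf u a1 n1) =
      ∑ k0 ∈ Finset.range B, ∑ k1 ∈ Finset.range B,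
        (if a0 * k0 = p.1 then cf M ((u⁻¹ : Rˣ) : R) a0 n0 k0 else 0) *
        (if a1 * k1 = p.2 then cf M ((u⁻¹ : Rˣ) : R) a1 n1 k1 else 0) := by
    intro p hp
    rw [Finset.HasAntidiagonal.mem_antidiagonal] at hp
    rw [coeff_mf M hu hn0 h0 (show p.1 + 1 ≤ B by omega),
      coeff_mf M hu hn1 h1 (show p.2 + 1 ≤ B by omega), Finset.sum_mul_sum]
  rw [Finset.sum_congr rfl e1, Finset.sum_comm]
  refine Finset.sum_congr rfl fun k0 _ => ?_
  rw [Finset.sum_comm]
  refine Finset.sum_congr rfl fun k1 _ => ?_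
  by_cases h : a0 * k0 + a1 * k1 = N
  · rw [if_pos h, Finset.sum_eq_single (a0 * k0, a1 * k1)]
    · rw [if_pos rfl, if_pos rfl]
    · rintro ⟨p, q⟩ _ hpq
      by_cases h2 : a0 * k0 = p
      · by_cases h3 : a1 * k1 = q
        · exact absurd (by rw [h2, h3]) hpq
        · simp only [if_neg h3, mul_zero]
      · simp only [if_neg h2, zero_mul]
    · intro h2
      exact absurd (Finset.HasAntidiagonal.mem_antidiagonal.2 h) h2
  · rw [if_neg h]
    refine Finset.sum_eq_zero ?_
    rintro ⟨p, q⟩ hpq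
    rw [Finset.HasAntidiagonal.mem_antidiagonal] at hpq
    by_cases h2 : a0 * k0 = p
    · by_cases h3 : a1 * k1 = q
      · exfalso
        apply h
        rw [h2, h3]
        exact hpq
      · simp only [if_neg h3, mul_zero]
    · simp only [if_neg h2, zero_mul]

end mfc

end Pool.Agent.Q66.QM
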